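import Pool.Agent.Helper75_ALT.Inf
import Pool.Agent.Helper77_ALT.PairA

/-!
# SPLITL: the splitting field of all points
-/

set_option autoImplicit false

open Polynomial Set

namespace Pool.Agent.Helper74_ALT.H45

open Pool.Agent.Helper74_ALT.H53 (fv_comp powX_C powX_single)

/-- The algebraic closure of `EE`. -/
abbrev AA : Type := AlgebraicClosure EE

section

variable {G : Type} [Group G] {S : Setup G} (F : Fam S)

/-- Points and embeddings. -/
theorem isPt_comp {L L' : Type} [Field L] [CharZero L] [Field L'] [CharZero L'] (J : L →+* L')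
    (jE : EE →+* L) (φ : S.N →+* L) : F.IsPt (J.comp jE) (J.comp φ) ↔ F.IsPt jE φ := by
  unfold Fam.IsPt
  have h := fv_comp F J φ (fun i => jE (cE i))
  change F.fv (J.comp φ) (fun i => J (jE (cE i))) = J (jE tE) ↔ _
  rw [h]
  exact ⟨fun h => J.injective h, fun h => by rw [h]⟩

/-- A homomorphism whose values at the `x i` lie in a subfield factors through it. -/
theorem exists_factor {κ L : Type} [Field κ] [Field L] (inc : κ →+* L) (φ : S.N →+* L)
    (h : ∀ i, φ (S.x i) ∈ inc.fieldRange) : ∃ φ' : S.N →+* κ, inc.comp φ' = φ := by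
  have h1 : Subfield.closure (range (Rat.castHom S.N) ∪ range S.x) ≤ inc.fieldRange.comap φ := by
    rw [Subfield.closure_le]
    rintro z (⟨q, rfl⟩ | ⟨i, rfl⟩)
    · change φ ((q : S.N)) ∈ inc.fieldRange
      rw [map_ratCast]
      exact SubfieldClass.ratCast_mem _ q
    · exact h i
  rw [S.kr.gen] at h1
  obtain ⟨φ', hφ'⟩ := H77.lift_hom inc φ (fun z => h1 trivial)
  exact ⟨φ', RingHom.ext hφ'⟩

end

section

variable {G : Type} [Group G] [Finite G] {S : Setup G} (F : Fam S)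

/-- the size of the field of points -/
noncomputable def kap : LL :=
  (algebraMap KK LL (cK 2)) ^ 2 * ((F.R.leadingCoeff : ℚ) : LL) ^ 2 /
    ((2 * F.R.natDegree + 5 : ℕ) : LL)

/-- In a finite extension there are only finitely many points, with a uniform bound. -/
theorem embed_pts (hI : InfLStmt) (hN : NpStmt) (hE : EmbStmt) (L : Type) [Field L] [CharZero L]
    [Algebra EE L] [FiniteDimensional EE L] :
    ∃ f : {φ : S.N →+* L // F.IsPt (algebraMap EE L) φ} →
      H75.Al LL S.n (2 * F.R.natDegree + 5) S.k (kap F), Function.Injective f := by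
  let c : Fin 3 → LL := fun i => algebraMap KK LL (cK i)
  obtain ⟨u, hu⟩ : ∃ u : ℕ, u = 2 * F.R.natDegree + 5 := ⟨_, rfl⟩
  obtain ⟨κ, hκ⟩ : ∃ κ : LL, κ = (c 2) ^ 2 * ((F.R.leadingCoeff : ℚ) : LL) ^ 2 / (u : LL) :=
    ⟨_, rfl⟩
  have hu0 : 0 < u := by omega
  have hc2 : c 2 ≠ 0 := hE.indep.ne_zero 2
  have hn : 0 < S.n := S.cp.prime.pos
  have hnon : ∀ a : LL, (HahnSeries.single (-((S.n * u : ℕ) : ℤ)) 1 : LaurentSeries LL) ≠
      HahnSeries.C a := by
    intro a h
    have h1 := congrArg (fun f : LaurentSeries LL => f.coeff (-((S.n * u : ℕ) : ℤ))) h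
    have h2 : (-((S.n * u : ℕ) : ℤ)) ≠ 0 := by
      have := Nat.mul_pos hn hu0
      omega
    simp only [HahnSeries.coeff_single_same, HahnSeries.C_apply,
      HahnSeries.coeff_single_of_ne h2] at h1
    exact one_ne_zero h1
  obtain ⟨j₀, hj₀, hj₀t⟩ := hE.emb _ hnon
  obtain ⟨M₁, hM₁, j, hj⟩ := hN LL EE L j₀
  have hjK : ∀ a : KK, j (algebraMap EE L (kE a)) = HahnSeries.C (algebraMap KK LL a) := by
    intro a
    rw [hj, hj₀, powX_C]
  have hjt : j (algebraMap EE L tE) = HahnSeries.single (-((S.n * u * M₁ : ℕ) : ℤ)) 1 := by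
    rw [hj, hj₀t, powX_single]
    have e : (M₁ : ℤ) * -((S.n * u : ℕ) : ℤ) = -((S.n * u * M₁ : ℕ) : ℤ) := by
      push_cast
      ring
    rw [e]
  have hjc : (fun i => j (algebraMap EE L (cE i))) = cc c := by
    funext i
    exact hjK (cK i)
  obtain ⟨I1, I2, -⟩ := hI G S F LL c M₁ u κ hc2 hM₁ hu hκ
  have hpt : ∀ φ : S.N →+* L, F.IsPt (algebraMap EE L) φ →
      F.fv (j.comp φ) (cc c) = HahnSeries.single (-((S.n * u * M₁ : ℕ) : ℤ)) 1 := by
    intro φ h
    unfold Fam.IsPt at h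
    rw [← hjc, fv_comp, ← hjt, h]
  have hkap : kap F = κ := by
    rw [hκ, hu]
    rfl
  rw [← hu, hkap]
  refine ⟨fun φ => ⟨fun i => (j (φ.1 (S.x i))).leadingCoeff, ?_, ?_, ?_⟩, ?_⟩
  · exact (I1 (j.comp φ.1) (hpt φ.1 φ.2)).2.2.2
  · exact (I1 (j.comp φ.1) (hpt φ.1 φ.2)).2.2.1
  · exact (I1 (j.comp φ.1) (hpt φ.1 φ.2)).2.1
  · intro φ φ' h
    have h1 := I2 (j.comp φ.1) (j.comp φ'.1) (hpt φ.1 φ.2) (hpt φ'.1 φ'.2)
      (fun i => congrFun (congrArg Subtype.val h) i)
    apply Subtype.ext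
    refine RingHom.ext fun z => j.injective ?_
    exact RingHom.congr_fun h1 z

omit [Finite G] in
theorem kap_ne (hE : EmbStmt) : kap F ≠ 0 := by
  have hc2 : algebraMap KK LL (cK 2) ≠ 0 := hE.indep.ne_zero 2
  unfold kap
  refine div_ne_zero (mul_ne_zero (pow_ne_zero _ hc2) (pow_ne_zero _ ?_)) ?_
  · exact_mod_cast leadingCoeff_ne_zero.2 F.ne_R
  · have : 0 < 2 * F.R.natDegree + 5 := by omega
    exact_mod_cast this.ne'

/-- The points in the algebraic closure are finitely many. -/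
theorem finite_pts (hI : InfLStmt) (hN : NpStmt) (hE : EmbStmt) :
    Finite {φ : S.N →+* AA // F.IsPt (algebraMap EE AA) φ} := by
  classical
  have hn : 0 < S.n := S.cp.prime.pos
  have hk : 0 < S.k := by
    rw [S.hkG]
    exact Nat.mul_pos (by norm_num) Nat.card_pos
  obtain ⟨hfin, -⟩ := H75.card_Al S.n (2 * F.R.natDegree + 5) S.k (kap F) hn (by omega) hk
    (kap_ne F hE)
  by_contra hinf
  rw [not_finite_iff_infinite] at hinf
  obtain ⟨T, hT⟩ := Infinite.exists_subset_card_eq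
    {φ : S.N →+* AA // F.IsPt (algebraMap EE AA) φ}
    (Nat.card (H75.Al LL S.n (2 * F.R.natDegree + 5) S.k (kap F)) + 1)
  let V : Set AA := ⋃ φ ∈ T, range (fun i => φ.1 (S.x i))
  have hV : V.Finite := T.finite_toSet.biUnion fun φ _ => finite_range _
  have : FiniteDimensional EE (IntermediateField.adjoin EE V) := by
    have := hV.to_subtype
    exact IntermediateField.finiteDimensional_adjoin fun z _ =>
      (Algebra.IsAlgebraic.isAlgebraic z).isIntegral
  obtain ⟨f, hf⟩ := embed_pts F hI hN hE (IntermediateField.adjoin EE V)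
  have hfac : ∀ φ : T, ∃ φ' : S.N →+* IntermediateField.adjoin EE V,
      (algebraMap (IntermediateField.adjoin EE V) AA).comp φ' = φ.1.1 := by
    intro φ
    refine exists_factor _ _ fun i => ?_
    have h1 : φ.1.1 (S.x i) ∈ V := by
      refine mem_biUnion φ.2 ⟨i, rfl⟩
    exact ⟨⟨_, IntermediateField.subset_adjoin EE V h1⟩, rfl⟩
  choose g hg using hfac
  have hgp : ∀ φ : T, F.IsPt (algebraMap EE (IntermediateField.adjoin EE V)) (g φ) := by
    intro φ
    rw [← isPt_comp F (algebraMap (IntermediateField.adjoin EE V) AA), hg]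
    exact φ.1.2
  have hinj : Function.Injective (fun φ : T => f ⟨g φ, hgp φ⟩) := by
    intro φ φ' h
    have h1 := congrArg Subtype.val (hf h)
    apply Subtype.ext
    apply Subtype.ext
    rw [← hg φ, ← hg φ']
    exact congrArg _ h1
  have := Nat.card_le_card_of_injective _ hinj
  rw [Nat.card_eq_fintype_card, Fintype.card_coe, hT] at this
  omega

/-- the values of the points at the generators -/
def VV : Set AA := {z | ∃ φ : S.N →+* AA, F.IsPt (algebraMap EE AA) φ ∧ ∃ i, z = φ (S.x i)}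

/-- the splitting field -/
noncomputable def SL : IntermediateField EE AA := IntermediateField.adjoin EE (VV F)

theorem finite_VV (hI : InfLStmt) (hN : NpStmt) (hE : EmbStmt) : (VV F).Finite := by
  have := finite_pts F hI hN hE
  have h : VV F = ⋃ φ : {φ : S.N →+* AA // F.IsPt (algebraMap EE AA) φ},
      range (fun i => φ.1 (S.x i)) := by
    ext z
    constructor
    · rintro ⟨φ, hφ, i, rfl⟩
      exact mem_iUnion.2 ⟨⟨φ, hφ⟩, i, rfl⟩
    · intro hz
      obtain ⟨φ, i, rfl⟩ := mem_iUnion.1 hz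
      exact ⟨φ.1, φ.2, i, rfl⟩
  rw [h]
  exact finite_iUnion fun φ => finite_range _

theorem fd_SL (hI : InfLStmt) (hN : NpStmt) (hE : EmbStmt) : FiniteDimensional EE (SL F) := by
  have := (finite_VV F hI hN hE).to_subtype
  exact IntermediateField.finiteDimensional_adjoin fun z _ =>
    (Algebra.IsAlgebraic.isAlgebraic z).isIntegral

omit [Finite G] in
theorem gal_SL : IsGalois EE (SL F) := by
  have hn : Normal EE (SL F) := by
    rw [IntermediateField.normal_iff_forall_map_le']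
    intro σ
    unfold SL
    rw [IntermediateField.adjoin_map, IntermediateField.adjoin_le_iff]
    rintro _ ⟨_, ⟨φ, hφ, i, rfl⟩, rfl⟩
    refine IntermediateField.subset_adjoin _ _ ⟨((σ : AA →ₐ[EE] AA) : AA →+* AA).comp φ, ?_, i,
      rfl⟩
    have h1 := (isPt_comp F ((σ : AA →ₐ[EE] AA) : AA →+* AA) (algebraMap EE AA) φ).2 hφ
    have h2 : ((σ : AA →ₐ[EE] AA) : AA →+* AA).comp (algebraMap EE AA) = algebraMap EE AA := by
      ext z
      exact (σ : AA →ₐ[EE] AA).commutes z
    rwa [h2] at h1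
  exact { to_isSeparable := inferInstance, to_normal := hn }

omit [Finite G] in
/-- A point in the algebraic closure comes from the splitting field. -/
theorem pt_SL (φ : S.N →+* AA) (hφ : F.IsPt (algebraMap EE AA) φ) :
    ∃ φ' : S.N →+* SL F, (algebraMap (SL F) AA).comp φ' = φ ∧
      F.IsPt (algebraMap EE (SL F)) φ' := by
  obtain ⟨φ', h⟩ := exists_factor (algebraMap (SL F) AA) φ fun i =>
    ⟨⟨_, IntermediateField.subset_adjoin EE (VV F) ⟨φ, hφ, i, rfl⟩⟩, rfl⟩
  refine ⟨φ', h, ?_⟩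
  rw [← isPt_comp F (algebraMap (SL F) AA), h]
  exact hφ

/-- `ψ Y` is algebraic over the parameters and `t`. -/
theorem Y_mem_cl (hE : EmbStmt) (hA : ActStmt) {Ω : Type} [Field Ω] [CharZero Ω] (jE : EE →+* Ω)
    (ψ : S.N →+* Ω) (hψ : F.IsPt jE ψ) : ψ S.Y ∈ H77.cl (range
      (fun i : Fin 4 => jE (if h : (i : ℕ) < 3 then cE ⟨i, h⟩ else tE))) := by
  let _ : Algebra EE Ω := jE.toAlgebra
  have hu : AlgebraicIndependent ℚ
      (fun i : Fin 4 => jE (if h : (i : ℕ) < 3 then cE ⟨i, h⟩ else tE)) := H77.indepL hE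
  set u := (fun i : Fin 4 => jE (if h : (i : ℕ) < 3 then cE ⟨i, h⟩ else tE)) with hu'
  by_contra hY
  have hv : AlgebraicIndependent ℚ (fun o : Option (Fin 4) => o.elim (ψ S.Y) u) := by
    rw [hu.option_iff_transcendental]
    exact hY
  let W : Fin 3 ⊕ Fin 2 → Ω := Sum.elim (fun i => jE (cE i)) (fun _ => ψ S.Y)
  have hT := H77.relC_cl (range W)
  have hcT : ∀ j, jE (cE j) ∈ H77.cl (range W) := fun j => H77.subset_cl ⟨Sum.inl j, rfl⟩
  have hyT : ψ S.Y ∈ H77.cl (range W) := H77.subset_cl ⟨Sum.inr 0, rfl⟩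
  have hφT := H77.mem_of_Y hA S hT ψ hyT
  have htT : jE tE ∈ H77.cl (range W) := by
    have h1 : F.fv ψ (fun i => jE (cE i)) = jE tE := hψ
    rw [← h1]
    exact H77.fv_mem F hφT hcT
  have hW : AlgebraicIndependent ℚ W := by
    refine H77.exchange (by simp) hv ?_
    rintro (_ | i)
    · exact hyT
    · change u i ∈ _
      by_cases hi : (i : ℕ) < 3
      · simp only [hu', hi, dif_pos]
        exact hcT _
      · simp only [hu', hi, dif_neg, not_false_eq_true]
        exact htT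
  have h3 := hW.injective (a₁ := Sum.inr 0) (a₂ := Sum.inr 1) rfl
  simp at h3

omit [Finite G] in
theorem cl_le {Ω : Type} [Field Ω] [CharZero Ω] {s : Set Ω} {κ : Subfield Ω} (hκ : H77.RelC κ)
    (hs : s ⊆ κ) {z : Ω} (hz : z ∈ H77.cl s) : z ∈ κ := by
  obtain ⟨P, hP, h0⟩ := hz
  have hle : ∀ w ∈ Algebra.adjoin ℚ s, w ∈ κ := by
    intro w hw
    induction hw using Algebra.adjoin_induction with
    | mem x hx => exact hs hx
    | algebraMap r => exact SubfieldClass.ratCast_mem κ r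
    | add x y _ _ hx hy => exact add_mem hx hy
    | mul x y _ _ hx hy => exact mul_mem hx hy
  refine hκ (P.map (algebraMap (Algebra.adjoin ℚ s) Ω)) z ?_ ?_ ?_
  · intro h
    exact hP ((Polynomial.map_eq_zero_iff (FaithfulSMul.algebraMap_injective _ _)).1 h)
  · intro i
    rw [coeff_map]
    exact hle _ (P.coeff i).2
  · rw [eval_map, ← aeval_def]
    exact h0

theorem full_SL (hE : EmbStmt) (hA : ActStmt) (Ω : Type) [Field Ω] [CharZero Ω]
    (J : SL F →+* Ω) (ψ : S.N →+* Ω) (hψ : F.IsPt (J.comp (algebraMap EE (SL F))) ψ) :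
    ∃ φ : S.N →+* SL F, ψ = J.comp φ := by
  let _ : Algebra (SL F) Ω := J.toAlgebra
  have hκ := H77.relC_algC (L := Ω) (SL F)
  have hYκ : ψ S.Y ∈ (algebraicClosure (SL F) Ω).toSubfield := by
    refine cl_le hκ ?_ (Y_mem_cl F hE hA _ ψ hψ)
    rintro _ ⟨i, rfl⟩
    exact (algebraicClosure (SL F) Ω).algebraMap_mem (algebraMap EE (SL F) _)
  have hNκ := H77.mem_of_Y hA S hκ ψ hYκ
  obtain ⟨ψ', hψ'⟩ := H77.lift_hom (algebraMap (algebraicClosure (SL F) Ω) Ω) ψ
    (fun z => ⟨⟨ψ z, hNκ z⟩, rfl⟩)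
  let ι : algebraicClosure (SL F) Ω →ₐ[SL F] AA := IsAlgClosed.lift
  have hcz : CharZero (algebraicClosure (SL F) Ω) :=
    charZero_of_injective_algebraMap (R := SL F)
      (algebraMap (SL F) (algebraicClosure (SL F) Ω)).injective
  have h1 : F.IsPt ((algebraMap (SL F) (algebraicClosure (SL F) Ω)).comp
      (algebraMap EE (SL F))) ψ' := by
    rw [← isPt_comp F (algebraMap (algebraicClosure (SL F) Ω) Ω)]
    have e1 : (algebraMap (algebraicClosure (SL F) Ω) Ω).comp ψ' = ψ := RingHom.ext hψ'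
    rw [e1]
    exact hψ
  have h2 : F.IsPt (algebraMap EE AA) ((ι : _ →+* AA).comp ψ') := by
    have h3 := (isPt_comp F (ι : algebraicClosure (SL F) Ω →+* AA) _ ψ').2 h1
    have e2 : (ι : algebraicClosure (SL F) Ω →+* AA).comp
        ((algebraMap (SL F) (algebraicClosure (SL F) Ω)).comp (algebraMap EE (SL F))) =
        algebraMap EE AA := by
      ext z
      change ι (algebraMap (SL F) (algebraicClosure (SL F) Ω) (algebraMap EE (SL F) z)) = _
      rw [ι.commutes]
      rfl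
    rwa [e2] at h3
  obtain ⟨φ, hφ, -⟩ := pt_SL F _ h2
  refine ⟨φ, RingHom.ext fun z => ?_⟩
  have h4 : ι (ψ' z) = ι (algebraMap (SL F) (algebraicClosure (SL F) Ω) (φ z)) := by
    rw [ι.commutes]
    exact (RingHom.congr_fun hφ z).symm
  have h5 := ι.toRingHom.injective h4
  rw [← hψ', h5]
  rfl

omit [Finite G] in
theorem gen_SL (σ : SL F ≃ₐ[EE] SL F) (hσ : ∀ φ : S.N →+* SL F,
    F.IsPt (algebraMap EE (SL F)) φ → ((σ : SL F ≃ₐ[EE] SL F) : SL F →+* SL F).comp φ = φ) :
    σ = 1 := by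
  have h : (σ : SL F →ₐ[EE] SL F) = AlgHom.id EE (SL F) := by
    refine IntermediateField.algHom_ext_of_eq_adjoin (F := EE) (S := SL F) (s := VV F)
      (K := SL F) (hS := rfl) ?_
    rintro z ⟨φ, hφ, i, rfl⟩
    obtain ⟨φ', h1, h2⟩ := pt_SL F φ hφ
    have h3 := RingHom.congr_fun (hσ φ' h2) (S.x i)
    have h4 : (⟨φ (S.x i), IntermediateField.subset_adjoin EE (VV F) ⟨φ, hφ, i, rfl⟩⟩ : SL F) =
        φ' (S.x i) := by
      apply Subtype.ext
      exact (RingHom.congr_fun h1 (S.x i)).symm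
    rw [h4]
    exact h3
  exact AlgEquiv.ext fun z => AlgHom.congr_fun h z

end

/-- SPLITL -/
theorem splitl (hI : InfLStmt) (hN : NpStmt) (hE : EmbStmt) (hA : ActStmt) : SplitStmt := by
  intro G _ _ S F
  refine ⟨SL F, inferInstance, inferInstance, inferInstance, ?_⟩
  exact { fd := fd_SL F hI hN hE
          gal := gal_SL F
          full := fun Ω _ _ J ψ hψ => full_SL F hE hA Ω J ψ hψ
          gen := gen_SL F }

end Pool.Agent.Helper74_ALT.H45
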